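import Pool.Agent.MP_3ce0a0_al.H79.SpecN

/-
Orbits of cells of a finite connected graph without leaves.
-/

namespace Pool.Agent.MP_3ce0a0_al.H87

open Pool.Agent.MP_3ce0a0_al.H79 Finset

open Classical in
/-- the boundary map. -/
noncomputable def bdL {V E : Type} [Fintype E] (o t : E → V) : (E → ℂ) →ₗ[ℂ] (V → ℂ) where
  toFun c v := (∑ e, if t e = v then c e else 0) - ∑ e, if o e = v then c e else 0
  map_add' c d := by
    ext v
    have h : ∀ (a : E → V) e, (if a e = v then (c + d) e else 0) =
        (if a e = v then c e else 0) + if a e = v then d e else 0 := by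
      intro a e
      split_ifs <;> simp
    rw [Pi.add_apply]
    simp only [h, sum_add_distrib]
    ring
  map_smul' r c := by
    ext v
    have h : ∀ (a : E → V) e, (if a e = v then (r • c) e else 0) =
        r * (if a e = v then c e else 0) := by
      intro a e
      split_ifs <;> simp
    rw [RingHom.id_apply, Pi.smul_apply, smul_eq_mul]
    simp only [h, ← mul_sum]
    ring

open Classical in
theorem bdL_single {V E : Type} [Fintype E] (o t : E → V) (e : E) :
    bdL o t (Pi.single e 1) = Pi.single (t e) 1 - Pi.single (o e) 1 := by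
  ext v
  have h : ∀ a : E → V, (∑ d, if a d = v then (Pi.single e (1 : ℂ) : E → ℂ) d else 0) =
      (Pi.single (a e) (1 : ℂ) : V → ℂ) v := by
    intro a
    rw [sum_eq_single e]
    · simp [Pi.single_apply, eq_comm]
    · intro d _ hd
      simp [hd]
    · simp
  rw [Pi.sub_apply, ← h t, ← h o]
  rfl

theorem rank_bounds {V E : Type} [Fintype V] [Fintype E] (o t : E → V) (m : ℕ)
    (j : HV m →ₗ[ℂ] (E → ℂ)) (hne : Nonempty V) (hc : ∀ u v, Lnk o t (fun _ => True) u v)
    (hj : Function.Injective j) (hr : ∀ c, c ∈ LinearMap.range j ↔ Cyc o t c) :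
    Fintype.card E ≤ Fintype.card V + m ∧ Fintype.card V + m ≤ Fintype.card E + 1 := by
  classical
  have hker : LinearMap.ker (bdL o t) = LinearMap.range j := by
    ext c
    rw [hr, LinearMap.mem_ker, funext_iff]
    exact forall_congr' fun v => sub_eq_zero
  have h1 := LinearMap.finrank_range_add_finrank_ker (bdL o t)
  rw [hker, LinearMap.finrank_range_of_inj hj, Module.finrank_fintype_fun_eq_card,
    Module.finrank_fintype_fun_eq_card, Fintype.card_fin] at h1
  have h2 : Module.finrank ℂ (LinearMap.range (bdL o t)) ≤ Fintype.card V := by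
    rw [← Module.finrank_fintype_fun_eq_card ℂ]
    exact Submodule.finrank_le _
  obtain ⟨v0⟩ := hne
  have h3 : ∀ v, (Pi.single v 1 - Pi.single v0 1 : V → ℂ) ∈ LinearMap.range (bdL o t) := by
    intro v
    induction hc v0 v with
    | refl => simp
    | @tail a b _ hab ih =>
      obtain ⟨e, -, ⟨rfl, rfl⟩ | ⟨rfl, rfl⟩⟩ := hab
      · have := add_mem (LinearMap.mem_range_self (bdL o t) (Pi.single e 1)) ih
        rw [bdL_single] at this
        convert this using 1
        abel
      · have := sub_mem ih (LinearMap.mem_range_self (bdL o t) (Pi.single e 1))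
        rw [bdL_single] at this
        convert this using 1
        abel
  have h4 : LinearMap.range (bdL o t) ⊔ Submodule.span ℂ {(Pi.single v0 1 : V → ℂ)} = ⊤ := by
    rw [eq_top_iff]
    intro x _
    rw [pi_eq_sum_univ' x]
    refine Submodule.sum_mem _ fun v _ => Submodule.smul_mem _ _ ?_
    have : (Pi.single v 1 : V → ℂ) = (Pi.single v 1 - Pi.single v0 1) + Pi.single v0 1 := by abel
    rw [this]
    exact Submodule.add_mem_sup (h3 v) (Submodule.mem_span_singleton_self _)
  have h5 := Submodule.finrank_add_le_finrank_add_finrank (LinearMap.range (bdL o t))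
    (Submodule.span ℂ {(Pi.single v0 1 : V → ℂ)})
  rw [h4, finrank_top, Module.finrank_fintype_fun_eq_card,
    finrank_span_singleton (by simp)] at h5
  omega

theorem card_orbit_le {G E X : Type} [Group G] [MulAction G E] [MulAction G X] (b : Bool)
    (N : Finset (E × Bool)) (η : E) (hN : ∀ g : G, (g • η, b) ∈ N) (x : X)
    (hx : ∀ g : G, g • η = η → g • x = x) : Nat.card (MulAction.orbit G x) ≤ N.card := by
  have hch : ∀ y : MulAction.orbit G x, ∃ g : G, g • x = y := fun y => y.2
  choose s hs using hch
  rw [← Nat.card_eq_finsetCard]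
  refine Nat.card_le_card_of_injective (fun y => (⟨(s y • η, b), hN _⟩ : N)) ?_
  intro y y' h
  have h1 : s y • η = s y' • η := congrArg (fun z : N => z.1.1) h
  have h2 := hx ((s y')⁻¹ * s y) (by rw [mul_smul, h1, inv_smul_smul])
  rw [mul_smul, inv_smul_eq_iff] at h2
  exact Subtype.ext (by rw [← hs y, ← hs y', h2])

theorem sorb : SOrb := by
  intro G V E _ _ _ _ _ o t m j hm ho ht hne hc hv hj hr
  classical
  obtain ⟨hE, hV⟩ := rank_bounds o t m j hne hc hj hr
  let en : E × Bool → V := fun h => if h.2 then t h.1 else o h.1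
  have hen : ∀ (g : G) (h : E × Bool), en (g • h.1, h.2) = g • en h := by
    rintro g ⟨e, _ | _⟩ <;> simp [en, ho, ht]
  let st : V → Finset (E × Bool) := fun v => univ.filter fun h => en h = v
  have hst : ∀ v, 2 ≤ (st v).card := by
    intro v
    have := hv v
    rw [Nat.card_eq_fintype_card, Nat.card_eq_fintype_card, Fintype.card_subtype,
      Fintype.card_subtype, card_filter, card_filter, ← sum_add_distrib] at this
    refine this.trans_eq ?_
    rw [card_filter, Fintype.sum_prod_type]
    refine sum_congr rfl fun e _ => ?_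
    rw [Fintype.sum_bool, add_comm]
    rfl
  have hsum : ∑ v, (st v).card = 2 * Fintype.card E := by
    have := card_eq_sum_card_fiberwise (f := en) (s := univ) (t := univ)
      (fun _ _ => mem_coe.2 (mem_univ _))
    rw [← this]
    simp [mul_comm]
  have hinv : ∀ (g : G) v, (st v).card ≤ (st (g • v)).card := by
    intro g v
    refine card_le_card_of_injOn (fun h => (g • h.1, h.2)) ?_ ?_
    · intro h hh
      simp only [st, coe_filter, mem_univ, true_and, Set.mem_ofPred_eq] at hh ⊢
      rw [hen, hh]
    · intro h _ h' _ hh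
      simp only [Prod.mk.injEq, smul_left_cancel_iff] at hh
      exact Prod.ext hh.1 hh.2
  let N : Finset (E × Bool) := univ.filter fun h => 3 ≤ (st (en h)).card
  have hN : N.card ≤ 6 * m := by
    have h1 : N.card = ∑ v, (N.filter fun h => en h = v).card :=
      card_eq_sum_card_fiberwise (fun _ _ => mem_coe.2 (mem_univ _))
    have h2 : ∀ v, (N.filter fun h => en h = v).card + 6 ≤ 3 * (st v).card := by
      intro v
      by_cases h : 3 ≤ (st v).card
      · have : (N.filter fun h => en h = v).card ≤ (st v).card :=
          card_le_card (filter_subset_filter _ (subset_univ _))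
        omega
      · have : (N.filter fun h => en h = v) = ∅ := by
          rw [filter_eq_empty_iff]
          intro x hx hxv
          simp only [N, mem_filter, mem_univ, true_and] at hx
          exact h (hxv ▸ hx)
        have := hst v
        rw [‹(N.filter fun h => en h = v) = ∅›, card_empty]
        omega
    have h3 := sum_le_sum fun v (_ : v ∈ univ) => h2 v
    rw [sum_add_distrib, ← h1, ← mul_sum, hsum, sum_const, card_univ, smul_eq_mul] at h3
    omega
  let D : E → Prop := fun e => ∃ η ∈ N, ∀ g : G, g • η.1 = η.1 → g • e = e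
  have hclo : ∀ h h' : E × Bool, en h = en h' → D h.1 → D h'.1 := by
    rintro h h' hh ⟨η, hη, hs⟩
    by_cases h3 : 3 ≤ (st (en h')).card
    · exact ⟨h', by simpa [N] using h3, fun g hg => hg⟩
    refine ⟨η, hη, fun g hg => ?_⟩
    have hg1 := hs g hg
    by_contra hne'
    apply h3
    have hfix : g • en h = en h := by rw [← hen, hg1]
    have ha : h ≠ h' := by
      rintro rfl
      exact hne' hg1
    have hb : h ≠ (g • h'.1, h'.2) := by
      intro hb
      have h5 : h.1 = g • h'.1 := congrArg Prod.fst hb
      have h6 : h'.1 = h.1 := by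
        rw [← smul_left_cancel_iff g, hg1, h5]
      exact hne' (by rw [h6, hg1])
    have hc' : h' ≠ (g • h'.1, h'.2) := fun hb => hne' (congrArg Prod.fst hb).symm
    rw [Nat.succ_le_iff, two_lt_card]
    refine ⟨h, ?_, h', ?_, (g • h'.1, h'.2), ?_, ha, hb, hc'⟩
    · simp [st, hh]
    · simp [st]
    · simp only [st, mem_filter, mem_univ, true_and]
      rw [hen, ← hh, hfix]
  obtain ⟨v0, hv0⟩ : ∃ v0, 3 ≤ (st v0).card := by
    by_contra hno
    have h1 : ∀ v, (st v).card = 2 := fun v => by
      have := hst v
      have : ¬ 3 ≤ (st v).card := fun h => hno ⟨v, h⟩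
      omega
    simp only [h1, sum_const, card_univ, smul_eq_mul] at hsum
    omega
  have hall : ∀ v, ∀ h : E × Bool, en h = v → D h.1 := by
    intro v
    induction hc v0 v with
    | refl => exact fun h hh => ⟨h, by simpa [N, hh] using hv0, fun g hg => hg⟩
    | @tail a b _ hab ih =>
      obtain ⟨e, -, ⟨rfl, rfl⟩ | ⟨rfl, rfl⟩⟩ := hab
      · exact fun h hh => hclo (e, true) h hh.symm (ih (e, false) rfl)
      · exact fun h hh => hclo (e, false) h hh.symm (ih (e, true) rfl)
  have hNinv : ∀ η ∈ N, ∀ g : G, (g • η.1, η.2) ∈ N := by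
    intro η hη g
    simp only [N, mem_filter, mem_univ, true_and] at hη ⊢
    rw [hen]
    exact hη.trans (hinv g _)
  refine ⟨fun v => ?_, fun e => ?_⟩
  · obtain ⟨h, hh⟩ : (st v).Nonempty := card_pos.1 (by have := hst v; omega)
    have hh' : en h = v := by simpa [st] using hh
    obtain ⟨η, hη, hs⟩ := hall v h hh'
    refine (card_orbit_le η.2 N η.1 (hNinv η hη) v fun g hg => ?_).trans hN
    rw [← hh', ← hen, hs g hg]
  · obtain ⟨η, hη, hs⟩ := hall _ (e, true) rfl
    exact (card_orbit_le η.2 N η.1 (hNinv η hη) e hs).trans hN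

end Pool.Agent.MP_3ce0a0_al.H87
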