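import Pool.Agent.MP_3ce0a0_al.H79.SpecT

/-
Assembly of the realisation theorem for finite groups of outer automorphisms.
-/

namespace Pool.Agent.MP_3ce0a0_al.H87

open Pool.Agent.MP_3ce0a0_al.H79

/-- the centre of a free group of rank at least two is trivial. -/
theorem central_eq_one {m : ℕ} (hm : 2 ≤ m) (x : FG m) (hx : ∀ y, x * y = y * x) : x = 1 := by
  classical
  by_contra hne
  have hw : x.toWord ≠ [] := fun h => hne (FreeGroup.toWord_eq_nil_iff.1 h)
  obtain ⟨a, w, hw'⟩ := List.exists_cons_of_ne_nil hw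
  haveI : Nontrivial (Fin m) := Fin.nontrivial_iff_two_le.2 hm
  obtain ⟨c, hc⟩ := exists_ne a.1
  have h1 : (FreeGroup.of c * x).toWord = (c, true) :: x.toWord := by
    rw [FreeGroup.toWord_mul, FreeGroup.toWord_of, List.singleton_append, FreeGroup.reduce.cons,
      FreeGroup.reduce_toWord, hw']
    simp [hc]
  have h2 : FreeGroup.Red (x.toWord ++ [(c, true)]) ((c, true) :: x.toWord) := by
    rw [← h1, ← hx, FreeGroup.toWord_mul, FreeGroup.toWord_of]
    exact FreeGroup.reduce.red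
  have h3 := h2.sublist.eq_of_length (by simp)
  rw [hw'] at h3
  simp only [List.cons_append, List.cons.injEq] at h3
  exact hc (by rw [← h3.1])

/-- the quotient of an action by the kernel of a surjection. -/
theorem exists_quot {E G X : Type} [Group E] [Group G] [MulAction E X] (q : E →* G)
    (hq : Function.Surjective q) (N : Subgroup E) (hN : ∀ e, e ∈ N ↔ q e = 1) :
    ∃ (X' : Type) (_ : MulAction G X') (pr : X → X'), Function.Surjective pr ∧
      (∀ u v, pr u = pr v ↔ ∃ f ∈ N, f • u = v) ∧ ∀ (e : E) x, pr (e • x) = q e • pr x := by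
  let r : Setoid X :=
    { r := fun u v => ∃ f ∈ N, f • u = v
      iseqv :=
        { refl := fun u => ⟨1, N.one_mem, one_smul _ _⟩
          symm := by
            rintro u v ⟨f, hf, rfl⟩
            exact ⟨f⁻¹, N.inv_mem hf, inv_smul_smul _ _⟩
          trans := by
            rintro u v w ⟨f, hf, rfl⟩ ⟨g, hg, rfl⟩
            exact ⟨g * f, N.mul_mem hg hf, mul_smul _ _ _⟩ } }
  have key : ∀ (a b : E) (u v : X), q a = q b → r.r u v → r.r (a • u) (b • v) := by
    rintro a b u v hab ⟨f, hf, rfl⟩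
    refine ⟨b * f * a⁻¹, (hN _).2 ?_, by simp [mul_smul]⟩
    simp [(hN f).1 hf, hab]
  let s : G → E := Function.surjInv hq
  have hs : ∀ g, q (s g) = g := Function.surjInv_eq hq
  let act : G → Quotient r → Quotient r := fun g =>
    Quotient.map (fun x => s g • x) fun u v h => key _ _ u v rfl h
  have hact : ∀ (e : E) (x : X), act (q e) (Quotient.mk r x) = Quotient.mk r (e • x) :=
    fun e x => Quotient.sound (key _ _ x x (hs _) (r.refl' x))
  let inst : MulAction G (Quotient r) :=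
    { smul := act
      one_smul := by
        intro y
        obtain ⟨x, rfl⟩ := Quotient.exists_rep y
        have := hact 1 x
        rw [map_one, one_smul] at this
        exact this
      mul_smul := by
        intro g h y
        obtain ⟨x, rfl⟩ := Quotient.exists_rep y
        obtain ⟨a, rfl⟩ := hq g
        obtain ⟨b, rfl⟩ := hq h
        change act (q a * q b) _ = act (q a) (act (q b) _)
        rw [← map_mul, hact, hact, hact, mul_smul] }
  exact ⟨Quotient r, inst, Quotient.mk r, Quotient.mk_surjective,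
    fun u v => Quotient.eq (r := r), fun e x => (hact e x).symm⟩

/-- the embedding of the free group in the extension. -/
def iota {G : Type} [Group G] {m : ℕ} (ψ : G →* Out (FG m)) : FG m →* PB ψ :=
  MonoidHom.codRestrict (MonoidHom.prod (1 : FG m →* G) (MulAut.conj : FG m →* MulAut (FG m)))
    (PB ψ) fun x => by
      change ψ 1 = QuotientGroup.mk (MulAut.conj x)
      rw [map_one, eq_comm, QuotientGroup.eq_one_iff]
      exact ⟨x, rfl⟩

theorem iota_val {G : Type} [Group G] {m : ℕ} (ψ : G →* Out (FG m)) (x : FG m) :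
    (iota ψ x).1 = (1, MulAut.conj x) := rfl

theorem iota_inj {G : Type} [Group G] {m : ℕ} (hm : 2 ≤ m) (ψ : G →* Out (FG m)) :
    Function.Injective (iota ψ) := by
  rw [injective_iff_map_eq_one]
  intro x hx
  have h : MulAut.conj x = 1 := congrArg (fun z : PB ψ => z.1.2) hx
  refine central_eq_one hm x fun y => ?_
  have h2 : x * y * x⁻¹ = y := congrArg (fun α : MulAut (FG m) => α y) h
  rw [mul_inv_eq_iff_eq_mul] at h2
  exact h2

/-- the projection of the extension. -/
def proj {G : Type} [Group G] {m : ℕ} (ψ : G →* Out (FG m)) : PB ψ →* G :=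
  (MonoidHom.fst _ _).comp (PB ψ).subtype

theorem proj_surj {G : Type} [Group G] {m : ℕ} (ψ : G →* Out (FG m)) :
    Function.Surjective (proj ψ) := by
  intro g
  obtain ⟨α, hα⟩ := QuotientGroup.mk_surjective (ψ g)
  exact ⟨⟨(g, α), hα.symm⟩, rfl⟩

theorem mem_range_iota {G : Type} [Group G] {m : ℕ} (ψ : G →* Out (FG m)) (e : PB ψ) :
    e ∈ (iota ψ).range ↔ proj ψ e = 1 := by
  constructor
  · rintro ⟨x, rfl⟩
    rfl
  · intro h
    obtain ⟨⟨g, α⟩, he⟩ := e
    have hg : g = 1 := h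
    subst hg
    have h1 : ψ 1 = QuotientGroup.mk α := he
    rw [map_one, eq_comm, QuotientGroup.eq_one_iff] at h1
    obtain ⟨x, rfl⟩ := h1
    exact ⟨x, rfl⟩

theorem sreal (h1 : SCut) (h2 : STree) (h3 : SQA) (h4 : SRA) (h5 : SRB) (h6 : SRC) (h7 : SRD) :
    SReal := by
  intro G _ _ m hm π ψ hπ
  have hinj := iota_inj hm ψ
  have hker : (iota ψ).range = (proj ψ).ker := by
    ext e
    rw [mem_range_iota, MonoidHom.mem_ker]
  have hnorm : (iota ψ).range.Normal := by rw [hker]; infer_instance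
  have hfi : (iota ψ).range.FiniteIndex := by rw [hker]; infer_instance
  obtain ⟨𝒞, h𝒞⟩ := h1 (PB ψ) m (iota ψ) hinj hnorm hfi
  have htf : ∀ f ∈ (iota ψ).range, ∀ j : ℕ, 0 < j → f ^ j = 1 → f = 1 := by
    rintro _ ⟨x, rfl⟩ j hj hx
    rw [← map_pow, map_eq_one_iff _ hinj] at hx
    rw [(pow_eq_one_iff_left hj.ne').1 hx, map_one]
  have hnt : ∃ f ∈ (iota ψ).range, f ≠ 1 := by
    refine ⟨iota ψ (FreeGroup.of ⟨0, by omega⟩), ⟨_, rfl⟩, ?_⟩
    rw [Ne, map_eq_one_iff _ hinj]
    exact FreeGroup.of_ne_one _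
  obtain ⟨V, Ed, iV, iE, o, t, side, hT, hC⟩ := h2 (PB ψ) (iota ψ).range 𝒞 htf hnt h𝒞
  obtain ⟨V', iV', pv, hpv, hpv1, hpv2⟩ :=
    exists_quot (X := V) (proj ψ) (proj_surj ψ) _ (mem_range_iota ψ)
  obtain ⟨Ed', iE', pe, hpe, hpe1, hpe2⟩ :=
    exists_quot (X := Ed) (proj ψ) (proj_surj ψ) _ (mem_range_iota ψ)
  have desc : ∀ a : Ed → V, (∀ (g : PB ψ) e, a (g • e) = g • a e) →
      ∃ a' : Ed' → V', ∀ e, a' (pe e) = pv (a e) := by
    intro a ha
    refine ⟨fun e' => pv (a (Function.surjInv hpe e')), fun e => ?_⟩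
    obtain ⟨f, hf, hfe⟩ := (hpe1 _ _).1 (Function.surjInv_eq hpe (pe e))
    exact (hpv1 _ _).2 ⟨f, hf, by rw [← ha, hfe]⟩
  obtain ⟨o', ho'⟩ := desc o hT.1
  obtain ⟨t', ht'⟩ := desc t hT.2.1
  haveI : Finite Ed' := by
    obtain ⟨R, hR, hRe⟩ := hC.2.1
    rw [← Set.finite_univ_iff]
    refine (hR.image pe).subset fun e' _ => ?_
    obtain ⟨e, rfl⟩ := hpe e'
    obtain ⟨f, hf, r, hr, rfl⟩ := hRe e
    exact ⟨r, hr, (hpe1 _ _).2 ⟨f, hf, rfl⟩⟩
  haveI : Finite V' := by
    rw [← Set.finite_univ_iff]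
    refine ((Set.finite_range o').union (Set.finite_range t')).subset fun v' _ => ?_
    obtain ⟨v, rfl⟩ := hpv v'
    obtain ⟨e, -, -, he | he, -⟩ := hC.2.2 v
    · exact Or.inl ⟨pe e, by rw [ho', he]⟩
    · exact Or.inr ⟨pe e, by rw [ht', he]⟩
  letI : Fintype V' := Fintype.ofFinite V'
  letI : Fintype Ed' := Fintype.ofFinite Ed'
  have hQ : Quo (iota ψ).range o t o' t' pv pe := ⟨hpv, hpe, hpv1, hpe1, ho', ht'⟩
  obtain ⟨hL, hV, p, j, hH⟩ := h3 (PB ψ) m (iota ψ) V Ed V' Ed' o t side o' t' pv pe hinj hT hC hQ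
  have hcov : Cov ψ (iota ψ) o t side o' t' pv pe p j :=
    ⟨iota_val ψ, hinj, hT, hC, hQ, hpv2, hpe2, hH, hL, hV⟩
  exact ⟨V', Ed', iV', iE', inferInstance, inferInstance, o', t', j,
    h4 G m π ψ (iota ψ) V Ed V' Ed' o t side o' t' pv pe p j hπ hcov,
    h5 G m π ψ (iota ψ) V Ed V' Ed' o t side o' t' pv pe p j hπ hcov,
    h6 G m π ψ (iota ψ) V Ed V' Ed' o t side o' t' pv pe p j hπ hcov,
    h7 G m π ψ (iota ψ) V Ed V' Ed' o t side o' t' pv pe p j hπ hcov⟩

end Pool.Agent.MP_3ce0a0_al.H87
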