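import Pool.Agent.MP_3ce0a0_al.H79.SpecS

/-
Transitive permutation groups that do not contain the alternating group are small.
-/

namespace Pool.Agent.MP_3ce0a0_al.H87

open Equiv Pool.Agent.MP_3ce0a0_al.H79 MulAction Pointwise

namespace TB

theorem four_pow_le (m : ℕ) (hm : 8 ≤ m) : 4 ^ m ≤ 2 * m.factorial := by
  induction m, hm using Nat.le_induction with
  | base => norm_num [Nat.factorial]
  | succ m hm ih =>
    rw [pow_succ, Nat.factorial_succ]
    nlinarith [Nat.factorial_pos m]

theorem choose_le (N : ℕ) (hN : 11 ≤ N) : N.choose (N / 2) ≤ 2 * (N - N / 2).factorial := by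
  by_cases h : N < 15
  · interval_cases N <;> norm_num [Nat.factorial, Nat.choose]
  · refine (Nat.choose_le_two_pow _ _).trans (le_trans ?_ (four_pow_le _ (by omega)))
    rw [show (4 : ℕ) = 2 ^ 2 by norm_num, ← pow_mul]
    exact Nat.pow_le_pow_right (by norm_num) (by omega)

theorem fac_mul_le (M a : ℕ) (hM : 1 ≤ M) (ha : 1 ≤ a) :
    M.factorial * a.factorial * (M + a) ≤ (M + a).factorial := by
  induction a, ha using Nat.le_induction with
  | base => simp [Nat.factorial_succ, mul_comm]
  | succ a ha ih =>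
    rw [← Nat.add_assoc, Nat.factorial_succ (M + a), Nat.factorial_succ a, mul_comm _ (M + a + 1)]
    refine Nat.mul_le_mul_left _ (le_trans ?_ ih)
    rw [mul_comm (a + 1), ← mul_assoc]
    exact Nat.mul_le_mul_left _ (by omega)

theorem three_fac_le (a : ℕ) (ha : 2 ≤ a) : 3 * a.factorial ≤ (a + 1) ^ a := by
  induction a, ha using Nat.le_induction with
  | base => norm_num [Nat.factorial]
  | succ a ha ih =>
    rw [Nat.factorial_succ, ← mul_assoc, mul_comm 3, mul_assoc]
    refine (Nat.mul_le_mul_left _ ih).trans ?_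
    rw [← pow_succ']
    exact Nat.pow_le_pow_left (by omega) _

theorem wreath_le (a : ℕ) (ha : 2 ≤ a) : ∀ b : ℕ, 2 ≤ b →
    b.factorial * a.factorial ^ b ≤ 2 * (a * b / 2).factorial * (a * b - a * b / 2).factorial := by
  intro b
  induction b using Nat.strong_induction_on with
  | _ b ih =>
    intro hb
    by_cases h2 : b = 2
    · subst h2
      rw [show a * 2 / 2 = a by omega, show a * 2 - a = a by omega, pow_two, mul_assoc]
      norm_num [Nat.factorial]
    by_cases h3 : b = 3
    · subst h3
      obtain ⟨s, t, hst, e1, e2⟩ : ∃ s t, s + t = a ∧ a * 3 / 2 = a + s ∧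
          a * 3 - a * 3 / 2 = a + t := ⟨a / 2, a - a / 2, by omega, by omega, by omega⟩
      rw [e2, e1]
      have h4 := Nat.mul_le_mul (Nat.factorial_mul_pow_le_factorial (m := a) (n := s))
        (Nat.factorial_mul_pow_le_factorial (m := a) (n := t))
      have h5 := three_fac_le a ha
      have h6 : a.factorial * (a + 1) ^ s * (a.factorial * (a + 1) ^ t) =
          a.factorial ^ 2 * (a + 1) ^ a := by
        conv_rhs => rw [← hst, pow_add, hst]
        ring
      rw [h6] at h4
      calc Nat.factorial 3 * a.factorial ^ 3 = 2 * (a.factorial ^ 2 * (3 * a.factorial)) := by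
            norm_num [Nat.factorial]; ring
        _ ≤ 2 * (a.factorial ^ 2 * (a + 1) ^ a) :=
            Nat.mul_le_mul_left _ (Nat.mul_le_mul_left _ h5)
        _ ≤ _ := by rw [mul_assoc]; exact Nat.mul_le_mul_left _ h4
    obtain ⟨c, rfl⟩ : ∃ c, b = c + 2 := ⟨b - 2, by omega⟩
    have h4 := ih c (by omega) (by omega)
    have h5 : 2 * c ≤ a * c := Nat.mul_le_mul_right _ ha
    have e0 : a * (c + 2) = a * c + 2 * a := by ring
    rw [e0]
    generalize a * c = P at h4 h5 ⊢
    rw [show P + 2 * a - (P + 2 * a) / 2 = (P - P / 2) + a by omega,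
      show (P + 2 * a) / 2 = P / 2 + a by omega]
    have h6 := fac_mul_le (P / 2) a (by omega) (by omega)
    have h7 := fac_mul_le (P - P / 2) a (by omega) (by omega)
    have h8 : (c + 2) * (c + 1) ≤ (P / 2 + a) * (P - P / 2 + a) :=
      Nat.mul_le_mul (by omega) (by omega)
    calc (c + 2).factorial * a.factorial ^ (c + 2)
        = (c.factorial * a.factorial ^ c) * a.factorial ^ 2 * ((c + 2) * (c + 1)) := by
          rw [Nat.factorial_succ, Nat.factorial_succ]; ring
      _ ≤ (2 * (P / 2).factorial * (P - P / 2).factorial) * a.factorial ^ 2 *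
          ((P / 2 + a) * (P - P / 2 + a)) :=
          Nat.mul_le_mul (Nat.mul_le_mul_right _ h4) h8
      _ = 2 * (((P / 2).factorial * a.factorial * (P / 2 + a)) *
          ((P - P / 2).factorial * a.factorial * (P - P / 2 + a))) := by ring
      _ ≤ _ := by
          rw [mul_assoc 2]
          exact Nat.mul_le_mul_left _ (Nat.mul_le_mul h6 h7)

variable {α : Type} [Fintype α] [DecidableEq α]

/-- permutations whose supports meet in exactly one point have a three cycle as commutator. -/
theorem three_cycle {g h : Perm α} {x : α} (hg : g x ≠ x) (hh : h x ≠ x)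
    (hx : ∀ y, g y ≠ y → h y ≠ y → y = x) : (g * h * g⁻¹ * h⁻¹).IsThreeCycle := by
  have inv : ∀ (f : Perm α) y, f y = y → f⁻¹ y = y := fun f y h1 => by
    rw [Perm.inv_eq_iff_eq, h1]
  have mov : ∀ (f : Perm α) y, f y ≠ y → f (f⁻¹ y) ≠ f⁻¹ y := fun f y h1 h2 => by
    have h3 : f (f⁻¹ y) = y := by simp
    rw [h3] at h2
    exact h1 (by rw [h2, h3, ← h2])
  have h1 : (g * h * g⁻¹ * h⁻¹).support ⊆ {x, g x, h x} := by
    intro y hy
    rw [Perm.mem_support] at hy
    by_contra hn
    simp only [Finset.mem_insert, Finset.mem_singleton, not_or] at hn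
    obtain ⟨n1, n2, n3⟩ := hn
    refine hy ?_
    simp only [Perm.mul_apply]
    by_cases c1 : h y = y
    · rw [inv h y c1]
      have h2 : h (g⁻¹ y) = g⁻¹ y := by
        by_contra h3
        by_cases c2 : g y = y
        · rw [inv g y c2] at h3
          exact h3 c1
        · have h4 := hx _ (mov g y c2) h3
          exact n2 (by rw [← h4]; simp)
      rw [h2]
      simp
    · have h2 : g y = y := by
        by_contra h3
        exact n1 (hx y h3 c1)
      have h3 : g (h⁻¹ y) = h⁻¹ y := by
        by_contra h4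
        have h5 := hx _ h4 (mov h y c1)
        exact n3 (by rw [← h5]; simp)
      rw [inv g _ h3]
      simpa using h2
  have h2 : g * h * g⁻¹ * h⁻¹ ≠ 1 := by
    intro h3
    have h4 : (g * h * g⁻¹ * h⁻¹) (h x) = h x := by rw [h3]; rfl
    have h5 : h (g⁻¹ x) = g⁻¹ x := by
      by_contra h6
      have h7 := hx _ (mov g x hg) h6
      exact hg (by conv_lhs => rw [← h7]; simp)
    simp only [Perm.mul_apply] at h4
    rw [show h⁻¹ (h x) = x by simp, h5] at h4
    exact hh (by simpa using h4.symm)
  have h3 := Perm.one_lt_card_support_of_ne_one h2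
  have h4 := (Finset.card_le_card h1).trans Finset.card_le_three
  have h5 : (g * h * g⁻¹ * h⁻¹).support.card ≠ 2 := by
    intro h6
    have h7 := (Perm.card_support_eq_two.1 h6).sign_eq
    simp only [map_mul, Perm.sign_inv] at h7
    rcases Int.units_eq_one_or (Perm.sign g) with a1 | a1 <;>
      rcases Int.units_eq_one_or (Perm.sign h) with a2 | a2 <;> rw [a1, a2] at h7 <;>
      exact absurd h7 (by decide)
  exact card_support_eq_three_iff.1 (by omega)

/-- a primitive group that misses the alternating group has a small base. -/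
theorem small_base (G : Subgroup (Perm α)) (hG : IsPreprimitive G α)
    (hA : ¬ alternatingGroup α ≤ G) :
    ∃ D : Finset α, 2 * D.card ≤ Fintype.card α ∧ ∀ g ∈ G, (∀ y ∈ D, g y = y) → g = 1 := by
  classical
  obtain ⟨D, h1, h2⟩ := (Finset.univ.filter (fun D : Finset α =>
    ∀ g ∈ G, (∀ y ∈ D, g y = y) → g = 1)).exists_min_image Finset.card
    ⟨Finset.univ, Finset.mem_filter.2 ⟨Finset.mem_univ _, fun g _ hg =>
      Equiv.ext (fun y => hg y (Finset.mem_univ y))⟩⟩
  have hD := (Finset.mem_filter.1 h1).2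
  refine ⟨D, ?_, hD⟩
  by_contra hlt
  have key : ∀ E : Finset α, E.card < D.card → ∃ g ∈ G, (∀ y ∈ E, g y = y) ∧ g ≠ 1 := by
    intro E hE
    by_contra hn
    push Not at hn
    have := h2 E (Finset.mem_filter.2 ⟨Finset.mem_univ _, hn⟩)
    omega
  obtain ⟨g, hg, g1, g2⟩ := key Dᶜ (by rw [Finset.card_compl]; omega)
  obtain ⟨x, hx⟩ : ∃ x, g x ≠ x := by
    by_contra hn
    push Not at hn
    exact g2 (Equiv.ext hn)
  have gD : ∀ y, g y ≠ y → y ∈ D := fun y hy => by
    by_contra hn
    exact hy (g1 y (Finset.mem_compl.2 hn))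
  obtain ⟨h, hh, k1, k2⟩ := key (D.erase x) (Finset.card_erase_lt_of_mem (gD x hx))
  have hx' : ∀ y, g y ≠ y → h y ≠ y → y = x := fun y y1 y2 => by
    by_contra hn
    exact y2 (k1 y (Finset.mem_erase.2 ⟨hn, gD y y1⟩))
  have hhx : h x ≠ x := fun h3 => k2 (hD h hh (fun y hy => by
    by_cases c : y = x
    · rw [c, h3]
    · exact k1 y (Finset.mem_erase.2 ⟨c, hy⟩)))
  exact hA (Perm.alternatingGroup_le_of_isPreprimitive_of_isThreeCycle_mem hG
    (three_cycle hx hhx hx')
    (G.mul_mem (G.mul_mem (G.mul_mem hg hh) (G.inv_mem hg)) (G.inv_mem hh)))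

omit [DecidableEq α] in
theorem card_le_of_base (G : Subgroup (Perm α)) (D : Finset α)
    (hD : ∀ g ∈ G, (∀ y ∈ D, g y = y) → g = 1) :
    Nat.card G ≤ (Fintype.card α).descFactorial D.card := by
  classical
  let F : G → (D ↪ α) := fun g => ⟨fun y => g.1 y.1, fun y z h => Subtype.ext (g.1.injective h)⟩
  have hF : Function.Injective F := by
    intro g g' h
    have h1 := hD (g'.1⁻¹ * g.1) (G.mul_mem (G.inv_mem g'.2) g.2) (fun y hy => by
      have h2 : g.1 y = g'.1 y := DFunLike.congr_fun h ⟨y, hy⟩
      rw [Perm.mul_apply, h2]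
      simp)
    exact Subtype.ext (inv_mul_eq_one.1 h1).symm
  have := Nat.card_le_card_of_injective F hF
  rwa [Nat.card_eq_fintype_card (α := D ↪ α), Fintype.card_embedding_eq, Fintype.card_coe] at this

/-- the order of a transitive group with a block. -/
theorem card_le_of_block (G : Subgroup (Perm α)) [IsPretransitive G α] {B : Set α}
    (hB : IsBlock G B) (hne : B.Nonempty) :
    Nat.card G ≤ (orbit G B).ncard.factorial * B.ncard.factorial ^ (orbit G B).ncard := by
  classical
  obtain ⟨x0, hx0⟩ := hne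
  choose t ht using fun x => exists_smul_eq G x0 x
  let f : α → orbit G B := fun x => ⟨t x • B, mem_orbit _ _⟩
  have hf : ∀ (x : α) (C : orbit G B), f x = C ↔ x ∈ C.1 := by
    rintro x ⟨_, g, rfl⟩
    have h1 : x ∈ t x • B := ⟨x0, hx0, ht x⟩
    constructor
    · intro h2
      rw [← h2]
      exact h1
    · intro h2
      refine Subtype.ext ?_
      by_contra h3
      exact Set.disjoint_left.1 (hB h3) h1 h2
  have hker : Nat.card (toPermHom G (orbit G B)).ker ≤
      B.ncard.factorial ^ (orbit G B).ncard := by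
    let F : (toPermHom G (orbit G B)).ker → {g : Perm α // f ∘ g = f} := fun k => ⟨k.1.1, by
      funext x
      have h1 : k.1 • f x = f x := DFunLike.congr_fun (MonoidHom.mem_ker.1 k.2) (f x)
      rw [Function.comp_apply, hf, ← h1]
      exact ⟨x, (hf x _).1 rfl, rfl⟩⟩
    have hF : Function.Injective F := fun k k' h => by
      have h1 : (F k).1 = (F k').1 := by rw [h]
      exact Subtype.ext (Subtype.ext h1)
    have h1 := Nat.card_le_card_of_injective F hF
    rw [Nat.card_eq_fintype_card (α := {g : Perm α // f ∘ g = f}), DomMulAct.stabilizer_card,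
      Finset.prod_congr rfl (g := fun _ => B.ncard.factorial), Finset.prod_const, Finset.card_univ,
      ← Nat.card_eq_fintype_card, Nat.card_coe_set_eq] at h1
    · exact h1
    · rintro C -
      congr 1
      rw [← Nat.card_eq_fintype_card, Nat.card_congr (Equiv.subtypeEquivRight (fun x => hf x C))]
      obtain ⟨_, g, rfl⟩ := C
      exact (Nat.card_coe_set_eq _).trans (Set.ncard_smul_set _ _)
  rw [← (toPermHom G (orbit G B)).ker.card_mul_index, Subgroup.index_ker, mul_comm]
  refine Nat.mul_le_mul ?_ hker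
  rw [← Nat.card_coe_set_eq, ← Nat.card_perm]
  exact Subgroup.card_le_card_group _

end TB

open TB in
theorem stb : STB := by
  intro α _ _ G hN hT hA
  by_cases hP : IsPreprimitive G α
  · obtain ⟨D, h1, h2⟩ := small_base G hP hA
    obtain ⟨E, h3, -, h4⟩ := Finset.exists_subsuperset_card_eq (n := Fintype.card α / 2)
      (Finset.subset_univ D) (by omega) (by rw [Finset.card_univ]; omega)
    have h5 := card_le_of_base G E (fun g hg h => h2 g hg (fun y hy => h y (h3 hy)))
    rw [h4, Nat.descFactorial_eq_factorial_mul_choose] at h5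
    refine h5.trans ((Nat.mul_le_mul_left _ (choose_le _ hN)).trans (le_of_eq ?_))
    ring
  · obtain ⟨B, hB, hB'⟩ : ∃ B : Set α, IsBlock G B ∧ ¬ IsTrivialBlock B := by
      by_contra hn
      push Not at hn
      exact hP { isTrivialBlock_of_isBlock := fun h => hn _ h }
    rw [IsTrivialBlock, not_or, Set.not_subsingleton_iff] at hB'
    have h1 := hB.ncard_block_mul_ncard_orbit_eq hB'.1.nonempty
    have h2 : 1 < B.ncard := Set.one_lt_ncard_iff_nontrivial.2 hB'.1
    have h3 : B.ncard ≠ Nat.card α := fun h => hB'.2 ((Set.eq_univ_iff_ncard B).2 h)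
    rw [Nat.card_eq_fintype_card] at h1 h3
    have h4 : 2 ≤ (orbit G B).ncard := by
      by_contra h5
      have h6 : (orbit G B).ncard = 0 ∨ (orbit G B).ncard = 1 := by omega
      rcases h6 with h6 | h6 <;> rw [h6] at h1 <;> omega
    rw [← h1]
    exact (card_le_of_block G hB hB'.1.nonempty).trans (wreath_le _ h2 _ h4)

end Pool.Agent.MP_3ce0a0_al.H87
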